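import Pool.Agent.Q234.JO.Exist

/-!
# MP_4e5d1f_mp, Q1 (helper234)

Jump operators generating the full matrix algebra give exponential contractivity for every
time-dependent Hamiltonian, with constants `K, γ` depending only on the jump operators.
-/

set_option autoImplicit false

noncomputable section

namespace Pool.Agent.Results.MP_4e5d1f_mp.HamiltonianIndependent

open Matrix MeasureTheory Set
open scoped ComplexOrder MatrixOrder

/-- The driven Lindbladian
`ρ ↦ -i[H, ρ] + ∑ⱼ (Lⱼ ρ Lⱼ† - ½ {Lⱼ† Lⱼ, ρ})`. -/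
def lindbladian {d m : ℕ} (L : Fin m → Matrix (Fin d) (Fin d) ℂ)
    (H ρ : Matrix (Fin d) (Fin d) ℂ) : Matrix (Fin d) (Fin d) ℂ :=
  (-Complex.I) • (H * ρ - ρ * H) +
    ∑ j, (L j * ρ * (L j)ᴴ - (1 / 2 : ℂ) • ((L j)ᴴ * L j * ρ + ρ * ((L j)ᴴ * L j)))

/-- An admissible drive: measurable, locally bounded on `[0, ∞)` and Hermitian on `[0, ∞)`
(the values at negative times play no role below). -/
structure IsDrive {d : ℕ} (H : ℝ → Matrix (Fin d) (Fin d) ℂ) : Prop where
  measurable : ∀ i j, Measurable fun t => H t i j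
  locallyBounded : ∀ T, ∃ C, ∀ t ∈ Icc (0 : ℝ) T, ∀ i j, ‖H t i j‖ ≤ C
  hermitian : ∀ t, 0 ≤ t → (H t).IsHermitian

/-- `E t s` (`t ≥ s ≥ 0`) is the propagator of `∂ₜ E t s = 𝓛ₜ ∘ E t s`, `E s s = id`, in the
integrated (Carathéodory) form. -/
structure IsPropagator {d m : ℕ} (L : Fin m → Matrix (Fin d) (Fin d) ℂ)
    (H : ℝ → Matrix (Fin d) (Fin d) ℂ)
    (E : ℝ → ℝ → (Matrix (Fin d) (Fin d) ℂ →ₗ[ℂ] Matrix (Fin d) (Fin d) ℂ)) : Prop where
  continuous : ∀ s, 0 ≤ s → ∀ ρ i j, ContinuousOn (fun t => E t s ρ i j) (Ici s)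
  eq : ∀ s t, 0 ≤ s → s ≤ t → ∀ ρ i j,
    E t s ρ i j = ρ i j + ∫ r in s..t, lindbladian L (H r) (E r s ρ) i j

/-- Density matrices. -/
def IsDensity {d : ℕ} (ρ : Matrix (Fin d) (Fin d) ℂ) : Prop := ρ.PosSemidef ∧ ρ.trace = 1

/-- The trace norm `tr √(A† A)`. -/
def traceNorm {d : ℕ} (A : Matrix (Fin d) (Fin d) ℂ) : ℝ := (trace (CFC.sqrt (Aᴴ * A))).re

open Pool.Agent.Q234.JO in
open scoped Matrix.Norms.L2Operator in
lemma adm_of_drive {d : ℕ} {H : ℝ → Matrix (Fin d) (Fin d) ℂ} (hH : IsDrive H) : Adm H := by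
  refine ⟨?_, fun T => ?_, hH.hermitian⟩
  · have h1 : H = fun t => ∑ i, ∑ j, H t i j • (Matrix.single i j (1 : ℂ)) := by
      funext t
      conv_lhs => rw [Matrix.matrix_eq_sum_single (H t)]
      refine Finset.sum_congr rfl fun i _ => Finset.sum_congr rfl fun j _ => ?_
      rw [Matrix.smul_single, smul_eq_mul, mul_one]
    rw [h1]
    refine Finset.aestronglyMeasurable_fun_sum _ fun i _ =>
      Finset.aestronglyMeasurable_fun_sum _ fun j _ => ?_
    exact (hH.measurable i j).aestronglyMeasurable.smul_const _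
  · obtain ⟨C, hC⟩ := hH.locallyBounded T
    refine ⟨∑ i, ∑ j, C * ‖(Matrix.single i j (1 : ℂ) : M d)‖, fun t ht => ?_⟩
    conv_lhs => rw [Matrix.matrix_eq_sum_single (H t)]
    refine (norm_sum_le _ _).trans (Finset.sum_le_sum fun i _ =>
      (norm_sum_le _ _).trans (Finset.sum_le_sum fun j _ => ?_))
    have h1 : (Matrix.single i j (H t i j) : M d) = H t i j • Matrix.single i j (1 : ℂ) := by
      rw [Matrix.smul_single, smul_eq_mul, mul_one]
    rw [h1, norm_smul]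
    exact mul_le_mul_of_nonneg_right (hC t ht i j) (norm_nonneg _)

open Pool.Agent.Q234.JO in
open scoped Matrix.Norms.L2Operator in
/-- entries as continuous linear functionals -/
def ent {d : ℕ} (i j : Fin d) : M d →L[ℝ] ℂ :=
  LinearMap.toContinuousLinearMap
    { toFun := fun X => X i j
      map_add' := fun _ _ => rfl
      map_smul' := fun _ _ => rfl }

open Pool.Agent.Q234.JO in
open scoped Matrix.Norms.L2Operator in
lemma gsol_of_prop {d m : ℕ} {L : Fin m → Matrix (Fin d) (Fin d) ℂ}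
    {H : ℝ → Matrix (Fin d) (Fin d) ℂ} (hH : IsDrive H)
    {E : ℝ → ℝ → (Matrix (Fin d) (Fin d) ℂ →ₗ[ℂ] Matrix (Fin d) (Fin d) ℂ)}
    (hE : IsPropagator L H E) {s : ℝ} (hs : 0 ≤ s) (ρ : Matrix (Fin d) (Fin d) ℂ) :
    GSol L H s (fun t => E t s ρ) ∧ E s s ρ = ρ := by
  have hc : ContinuousOn (fun t => E t s ρ) (Ici s) := by
    refine continuousOn_pi.2 fun i => continuousOn_pi.2 fun j => ?_
    exact hE.continuous s hs ρ i j
  have h0 : E s s ρ = ρ := by
    ext i j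
    rw [hE.eq s s hs le_rfl ρ i j]
    simp
  refine ⟨⟨hc, fun t ht => ?_⟩, h0⟩
  have hint := lin_int (L := L) (adm_of_drive hH) hs ht hc
  rw [h0]
  ext i j
  rw [hE.eq s t hs ht ρ i j, Matrix.add_apply]
  congr 1
  have h1 := ContinuousLinearMap.intervalIntegral_comp_comm (ent i j) hint
  exact h1

open Pool.Agent.Q234.JO in
open scoped Matrix.Norms.L2Operator in
lemma exists_prop {d m : ℕ} (L : Fin m → Matrix (Fin d) (Fin d) ℂ)
    {H : ℝ → Matrix (Fin d) (Fin d) ℂ} (hH : IsDrive H) : ∃ E, IsPropagator L H E := by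
  have hA := adm_of_drive hH
  have hex : ∀ (s : ℝ) (ρ : M d), ∃ X : ℝ → M d, 0 ≤ s → GSol L H s X ∧ X s = ρ := by
    intro s ρ
    by_cases hs : 0 ≤ s
    · obtain ⟨X, hX⟩ := exists_gsol (L := L) hA hs ρ
      exact ⟨X, fun _ => hX⟩
    · exact ⟨0, fun h => absurd h hs⟩
  choose x hx using hex
  let E : ℝ → ℝ → (Matrix (Fin d) (Fin d) ℂ →ₗ[ℂ] Matrix (Fin d) (Fin d) ℂ) := fun t s =>
    if h : 0 ≤ s ∧ s ≤ t then
      { toFun := fun ρ => x s ρ t
        map_add' := fun ρ σ => by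
          have h1 := (hx s (ρ + σ) h.1).1.unique hA h.1
            (((hx s ρ h.1).1.add hA h.1 (hx s σ h.1).1)) (by
              rw [(hx s (ρ + σ) h.1).2, (hx s ρ h.1).2, (hx s σ h.1).2]) t h.2
          exact h1
        map_smul' := fun c ρ => by
          have h1 := (hx s (c • ρ) h.1).1.unique hA h.1 ((hx s ρ h.1).1.csmul c) (by
              rw [(hx s (c • ρ) h.1).2, (hx s ρ h.1).2]) t h.2
          exact h1 }
    else 0
  have hE : ∀ s t, 0 ≤ s → s ≤ t → ∀ ρ, E t s ρ = x s ρ t := by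
    intro s t hs hst ρ
    simp only [E, dif_pos (show 0 ≤ s ∧ s ≤ t from ⟨hs, hst⟩)]
    rfl
  refine ⟨E, ⟨fun s hs ρ i j => ?_, fun s t hs hst ρ i j => ?_⟩⟩
  · have h1 : ContinuousOn (fun t => x s ρ t i j) (Ici s) :=
      continuousOn_pi.1 (continuousOn_pi.1 (hx s ρ hs).1.cont i) j
    refine h1.congr fun t ht => ?_
    show E t s ρ i j = _
    rw [hE s t hs ht]
  · rw [hE s t hs hst, (hx s ρ hs).1.eq t hst, Matrix.add_apply, (hx s ρ hs).2]
    congr 1
    have h1 := ContinuousLinearMap.intervalIntegral_comp_comm (ent i j)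
      (lin_int (L := L) hA hs hst (hx s ρ hs).1.cont)
    have h2 : (∫ r in s..t, lin L (H r) (x s ρ r)) i j =
        ∫ r in s..t, (lin L (H r) (x s ρ r)) i j := h1.symm
    rw [h2]
    refine intervalIntegral.integral_congr fun r hr => ?_
    rw [uIcc_of_le hst] at hr
    show _ = lindbladian L (H r) (E r s ρ) i j
    rw [hE s r hs hr.1]
    rfl

/-- **Q1 holds**, with constants depending only on the jump operators: if the jump operators
generate the full matrix algebra, there are `K, γ > 0` such that for every admissible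
time-dependent Hamiltonian the propagator exists and every propagator contracts the trace norm
of differences of density matrices at rate `K e^{-γ(t-s)}`. -/
theorem result (d : ℕ) (hd : 2 ≤ d) (m : ℕ) (L : Fin m → Matrix (Fin d) (Fin d) ℂ)
    (hL : Algebra.adjoin ℂ (Set.range L) = ⊤) :
    ∃ K : ℝ, 0 < K ∧ ∃ γ : ℝ, 0 < γ ∧ ∀ H : ℝ → Matrix (Fin d) (Fin d) ℂ, IsDrive H →
      (∃ E, IsPropagator L H E) ∧
      ∀ E, IsPropagator L H E → ∀ ρ σ : Matrix (Fin d) (Fin d) ℂ, IsDensity ρ → IsDensity σ →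
        ∀ s t : ℝ, 0 ≤ s → s ≤ t →
          traceNorm (E t s ρ - E t s σ) ≤ K * Real.exp (-γ * (t - s)) * traceNorm (ρ - σ) := by
  obtain ⟨K, hK, γ, hγ, h⟩ := Pool.Agent.Q234.JO.expo (L := L) hL (by omega)
  refine ⟨K, hK, γ, hγ, fun H hH => ⟨exists_prop L hH, fun E hE ρ σ hρ hσ s t hs hst => ?_⟩⟩
  obtain ⟨h1, h1'⟩ := gsol_of_prop hH hE hs ρ
  obtain ⟨h2, h2'⟩ := gsol_of_prop hH hE hs σ
  have h3 := h H (adm_of_drive hH) s hs _ _ h1 h2 (by rw [h1']; exact hρ) (by rw [h2']; exact hσ)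
    t hst
  rw [h1', h2'] at h3
  exact h3

end Pool.Agent.Results.MP_4e5d1f_mp.HamiltonianIndependent
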